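import Pool.Agent.Helper81.HM.TransferA
import Pool.Agent.Helper26.PN.Trace

/-!
# Project HM, module Z3: transfer of the statement from the unit interval to all Polish spaces
-/

set_option autoImplicit false

namespace Pool.Agent.Helper33.HM

universe u

open MeasureTheory Set Filter Topology Pool.Agent.Helper26.PN
open scoped ENNReal

section Z3

theorem z3_fsig_univ (X : Type u) [TopologicalSpace X] : IsFsig (univ : Set X) :=
  ⟨fun _ => univ, fun _ => isClosed_univ, (iUnion_const univ).symm⟩

open ProbabilityTheory in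
theorem z3_prob (h : RStmt) (X : Type u) [TopologicalSpace X] [PolishSpace X]
    [MeasurableSpace X] [BorelSpace X] (μ : Measure X) [IsProbabilityMeasure μ]
    [NullSingletonClass μ] (A : Set X) (hA : PMσ A) :
    ∃ F : Set X, IsFsig F ∧ A ⊆ F ∧ μ F = 0 := by
  haveI : Nonempty X := nonempty_of_isProbabilityMeasure μ
  obtain ⟨U, hUo, hUf, hUb⟩ := z3_base μ
  have hφm : Measurable (z3φ U) := z3φ_meas U fun i => (hUo i).measurableSet
  have hφi : Function.Injective (z3φ U) := z3φ_inj U hUb
  set ν : Measure ℝ := μ.map (z3φ U) with hν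
  haveI hνp : IsProbabilityMeasure ν := Measure.isProbabilityMeasure_map hφm.aemeasurable
  haveI hνs : NullSingletonClass ν := ⟨fun t => by
    rw [hν, Measure.map_apply hφm (measurableSet_singleton t)]
    exact (subsingleton_singleton.preimage hφi).measure_zero μ⟩
  have hν0 : ν (Iio 0) = 0 := by
    rw [hν, Measure.map_apply hφm measurableSet_Iio]
    have h1 : z3φ U ⁻¹' Iio 0 = ∅ := by
      ext x
      simp only [mem_preimage, mem_Iio, mem_empty_iff_false, iff_false, not_lt]
      exact z3φ_nonneg U x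
    rw [h1, measure_empty]
  have hcc : Continuous (cdf ν) := z3_cdf ν
  set g : X → ℝ := fun x => cdf ν (z3φ U x) with hg
  have hgm : Measurable g := hcc.measurable.comp hφm
  have hmap : μ.map g = volume.restrict (Icc 0 1) := by
    have h1 := z3_map ν hν0
    rw [hν, Measure.map_map hcc.measurable hφm] at h1
    exact h1
  have hμg : ∀ S : Set ℝ, MeasurableSet S → μ (g ⁻¹' S) = volume (S ∩ Icc 0 1) := by
    intro S hS
    rw [← Measure.map_apply hgm hS, hmap, Measure.restrict_apply hS]
  set N : Set ℝ := {y : ℝ | ∃ t₁ t₂, t₁ < t₂ ∧ cdf ν t₁ = y ∧ cdf ν t₂ = y} with hN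
  have hNc : N.Countable := z3_fib ν
  -- the key fact
  have key : ∀ x, g x ∉ N → ∀ K : Set X, IsClosed K → g x ∈ closure (g '' K) → x ∈ K := by
    intro x hx K hK hcl
    by_contra hxK
    obtain ⟨i, hxi, hsub⟩ := hUb x Kᶜ hK.isOpen_compl hxK
    obtain ⟨δ, hδ, hd⟩ := z3φ_digit U x i
    have hleft : cdf ν (z3φ U x - δ) < g x := by
      refine lt_of_le_of_ne (monotone_cdf ν (by linarith)) fun he => hx ?_
      exact ⟨z3φ U x - δ, z3φ U x, by linarith, he, rfl⟩
    have hright : g x < cdf ν (z3φ U x + δ) := by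
      refine lt_of_le_of_ne (monotone_cdf ν (by linarith)) fun he => hx ?_
      exact ⟨z3φ U x, z3φ U x + δ, by linarith, rfl, he.symm⟩
    obtain ⟨_, ⟨y, hyK, rfl⟩, hdist⟩ := Metric.mem_closure_iff.mp hcl
      (min (g x - cdf ν (z3φ U x - δ)) (cdf ν (z3φ U x + δ) - g x))
      (lt_min (by linarith) (by linarith))
    rw [Real.dist_eq, lt_min_iff] at hdist
    have hge : δ ≤ |z3φ U y - z3φ U x| := by
      by_contra hlt
      push Not at hlt
      exact hsub ((hd y hlt).mpr hxi) hyK
    rcases le_abs.mp hge with h1 | h1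
    · have h2 : cdf ν (z3φ U x + δ) ≤ g y := monotone_cdf ν (by linarith)
      have h3 := neg_le_abs (g x - g y)
      linarith [hdist.2]
    · have h2 : g y ≤ cdf ν (z3φ U x - δ) := monotone_cdf ν (by linarith)
      have h3 := le_abs_self (g x - g y)
      linarith [hdist.1]
  -- application of the hypothesis
  obtain ⟨H, hH, hcov⟩ := h (g '' A) (by
      rintro _ ⟨x, -, rfl⟩
      exact ⟨cdf_nonneg ν _, cdf_le_one ν _⟩) (by
      intro P hP
      set B := TopologicalSpace.countableBasis ℝ with hBdef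
      have hB : TopologicalSpace.IsTopologicalBasis B := TopologicalSpace.isBasis_countableBasis ℝ
      haveI : Countable B := TopologicalSpace.countable_countableBasis ℝ
      have hSm : ∀ q : ℕ × B, MeasurableSet ((P q.1 ∩ q.2) \ N) := fun q =>
        ((hP q.1).1.measurableSet.inter
          (TopologicalSpace.isOpen_of_mem_countableBasis q.2.2).measurableSet).diff
          hNc.measurableSet
      have hQ : ∀ q : ℕ × B, ∃ Q : Set X, Perfect Q ∧ Q ⊆ g ⁻¹' ((P q.1 ∩ q.2) \ N) ∧
          (μ (g ⁻¹' ((P q.1 ∩ q.2) \ N)) ≠ 0 → Q.Nonempty) := by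
        intro q
        by_cases hq : μ (g ⁻¹' ((P q.1 ∩ q.2) \ N)) = 0
        · exact ⟨∅, ⟨isClosed_empty, fun x hx => absurd hx (notMem_empty x)⟩, empty_subset _,
            fun h => absurd hq h⟩
        · obtain ⟨Q, h1, h2, h3⟩ := z3_kernel μ (hgm (hSm q)) hq
          exact ⟨Q, h1, h2, fun _ => h3⟩
      choose Q hQp hQs hQn using hQ
      obtain ⟨F, ⟨K, hK, rfl⟩, hAF, hF⟩ := pm_countable hA Q hQp
      refine ⟨fun k => closure (g '' K k), fun k => isClosed_closure, ?_, ?_⟩
      · rintro _ ⟨x, hx, rfl⟩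
        obtain ⟨k, hk⟩ := mem_iUnion.mp (hAF hx)
        exact mem_iUnion.mpr ⟨k, subset_closure ⟨x, hk, rfl⟩⟩
      · intro k n W hW hne hsub
        obtain ⟨p, hpP, hpW⟩ := hne
        obtain ⟨V, hV, hpV, hVW⟩ := hB.exists_subset_of_mem_open hpW hW
        have hVo : IsOpen V := TopologicalSpace.isOpen_of_mem_countableBasis hV
        have hvol : volume (P n ∩ V) ≠ 0 := (hP n).2.2 V hVo ⟨p, hpP, hpV⟩
        set q : ℕ × B := (n, ⟨V, hV⟩) with hq
        have hμS : μ (g ⁻¹' ((P q.1 ∩ q.2) \ N)) ≠ 0 := by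
          rw [hμg _ (hSm q)]
          have h1 : ((P q.1 ∩ (q.2 : Set ℝ)) \ N) ∩ Icc 0 1 = (P n ∩ V) \ N := by
            apply inter_eq_left.mpr
            exact fun t ht => (hP n).2.1 ht.1.1
          rw [h1, measure_sdiff_null (hNc.measure_zero volume)]
          exact hvol
        have hne := hQn q hμS
        have hsubK : Q q ⊆ K k := by
          intro x hx
          have h1 := hQs q hx
          exact key x h1.2 (K k) (hK k) (hsub ⟨h1.1.1, hVW h1.1.2⟩)
        have hm := hF q
        have huniv : ((↑) ⁻¹' (⋃ k, K k) : Set (Q q)) = univ := by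
          ext x
          simp only [mem_preimage, mem_univ, iff_true]
          exact mem_iUnion.mpr ⟨k, hsubK x.2⟩
        rw [huniv] at hm
        haveI : PolishSpace (Q q) := (hQp q).closed.polishSpace
        haveI : Nonempty (Q q) := hne.to_subtype
        exact not_isMeagre_of_isOpen isOpen_univ univ_nonempty hm)
  refine ⟨⋃ m, closure (g ⁻¹' H m), ⟨fun m => closure (g ⁻¹' H m), fun _ => isClosed_closure, rfl⟩,
    ?_, ?_⟩
  · intro x hx
    obtain ⟨m, hm⟩ := mem_iUnion.mp (hcov ⟨x, hx, rfl⟩)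
    exact mem_iUnion.mpr ⟨m, subset_closure hm⟩
  · refine measure_iUnion_null fun m => ?_
    have hsub : closure (g ⁻¹' H m) ⊆ g ⁻¹' H m ∪ ⋃ i, frontier (U i) := by
      intro x hx
      by_cases hxf : x ∈ ⋃ i, frontier (U i)
      · exact Or.inr hxf
      · left
        rw [mem_iUnion, not_exists] at hxf
        have hc : ContinuousAt g x := hcc.continuousAt.comp (z3φ_cont U x hxf)
        have h1 : g x ∈ closure (g '' (g ⁻¹' H m)) := mem_closure_image hc hx
        exact (hH m).1.closure_subset_iff.mpr (image_preimage_subset g (H m)) h1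
    refine measure_mono_null hsub (measure_union_null ?_ (measure_iUnion_null hUf))
    rw [hμg _ (hH m).1.measurableSet]
    exact measure_mono_null inter_subset_left (hH m).2

theorem null_cover_of_rStmt (h : RStmt) (X : Type u) [TopologicalSpace X] [PolishSpace X]
    [MeasurableSpace X] [BorelSpace X] (μ : Measure X) [IsFiniteMeasure μ]
    [NullSingletonClass μ] (A : Set X) (hA : PMσ A) :
    ∃ F : Set X, IsFsig F ∧ A ⊆ F ∧ μ F = 0 := by
  by_cases h0 : μ univ = 0
  · exact ⟨univ, z3_fsig_univ X, subset_univ A, h0⟩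
  · haveI : NeZero μ := ⟨fun h => h0 (by rw [h]; rfl)⟩
    haveI : IsProbabilityMeasure ((μ univ)⁻¹ • μ) := inferInstance
    haveI : NullSingletonClass ((μ univ)⁻¹ • μ) := ⟨fun x => by
      rw [Measure.smul_apply, measure_singleton, smul_zero]⟩
    obtain ⟨F, hF, hAF, hF0⟩ := z3_prob h X ((μ univ)⁻¹ • μ) A hA
    refine ⟨F, hF, hAF, ?_⟩
    rw [Measure.smul_apply, smul_eq_mul, mul_eq_zero] at hF0
    rcases hF0 with h1 | h1
    · exact absurd h1 (ENNReal.inv_ne_zero.mpr (measure_ne_top μ univ))
    · exact h1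

end Z3

end Pool.Agent.Helper33.HM
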