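import Pool.Agent.Helper33.HM.RDefs

/-!
# Project HM, module Z3: tools for the transfer of the statement from the unit interval to all
Polish spaces
-/

set_option autoImplicit false

namespace Pool.Agent.Helper33.HM

universe u

open MeasureTheory Set Filter Topology Pool.Agent.Helper26.PN
open scoped ENNReal

section Z3

/-- a measurable set of positive measure contains a nonempty perfect set -/
theorem z3_kernel {X : Type u} [TopologicalSpace X] [PolishSpace X] [MeasurableSpace X]
    [BorelSpace X] (μ : Measure X) [IsFiniteMeasure μ] [NullSingletonClass μ] {S : Set X}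
    (hS : MeasurableSet S) (h0 : μ S ≠ 0) : ∃ Q : Set X, Perfect Q ∧ Q ⊆ S ∧ Q.Nonempty := by
  obtain ⟨K, hKS, hK, hK0⟩ := hS.exists_lt_isCompact_of_ne_top (measure_ne_top μ S)
    (pos_iff_ne_zero.mpr h0)
  have hsub : (μ.restrict K).support ⊆ K :=
    Measure.support_restrict_subset.trans (inter_subset_left.trans hK.isClosed.closure_subset)
  refine ⟨(μ.restrict K).support, ⟨Measure.isClosed_support, ?_⟩, hsub.trans hKS, ?_⟩
  · rw [preperfect_iff_nhds]
    intro x hx U hU
    have h1 : 0 < (μ.restrict K) U := (Measure.mem_support_iff_forall x).mp hx U hU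
    have h2 : 0 < (μ.restrict K) (U \ {x}) := by
      rw [measure_sdiff_null (measure_singleton x)]
      exact h1
    obtain ⟨y, hy, hys⟩ := Measure.nonempty_inter_support_of_pos h2
    exact ⟨y, ⟨hy.1, hys⟩, hy.2⟩
  · apply Measure.nonempty_support
    intro h
    have h3 := congrArg (fun ν : Measure X => ν univ) h
    simp at h3
    exact hK0.ne' h3

/-- a countable base with null frontiers -/
theorem z3_base {X : Type u} [TopologicalSpace X] [PolishSpace X] [Nonempty X] [MeasurableSpace X]
    [BorelSpace X] (μ : Measure X) [IsFiniteMeasure μ] :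
    ∃ U : ℕ → Set X, (∀ i, IsOpen (U i)) ∧ (∀ i, μ (frontier (U i)) = 0) ∧
      ∀ x : X, ∀ O : Set X, IsOpen O → x ∈ O → ∃ i, x ∈ U i ∧ U i ⊆ O := by
  letI := TopologicalSpace.upgradeIsCompletelyMetrizable X
  have h1 : ∀ (a : X) (k : ℕ), ∃ r ∈ Ioo (1 / ((k : ℝ) + 2)) (1 / ((k : ℝ) + 1)),
      μ (frontier (Metric.thickening r {a})) = 0 := by
    intro a k
    apply exists_null_frontier_thickening
    have hk : (0 : ℝ) ≤ k := Nat.cast_nonneg k
    exact one_div_lt_one_div_of_lt (by linarith) (by linarith)
  choose r hr hr0 using h1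
  set D := TopologicalSpace.denseSeq X with hD
  refine ⟨fun i => Metric.ball (D i.unpair.1) (r (D i.unpair.1) i.unpair.2),
    fun i => Metric.isOpen_ball, ?_, ?_⟩
  · intro i
    have h2 := hr0 (D i.unpair.1) i.unpair.2
    rwa [Metric.thickening_singleton] at h2
  · intro x O hO hx
    obtain ⟨η, hη, hηO⟩ := Metric.isOpen_iff.mp hO x hx
    obtain ⟨k, hk⟩ := exists_nat_one_div_lt (half_pos hη)
    have hk2 : (0 : ℝ) < 1 / ((k : ℝ) + 2) := by positivity
    obtain ⟨a, ha⟩ := (TopologicalSpace.denseRange_denseSeq X).exists_dist_lt x hk2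
    refine ⟨Nat.pair a k, ?_, ?_⟩
    · beta_reduce
      rw [Nat.unpair_pair, Metric.mem_ball]
      exact ha.trans (hr (D a) k).1
    · beta_reduce
      rw [Nat.unpair_pair]
      refine Subset.trans ?_ hηO
      intro y hy
      rw [Metric.mem_ball] at hy ⊢
      have h3 := (hr (D a) k).2
      have h4 := (hr (D a) k).1
      calc dist y x ≤ dist y (D a) + dist (D a) x := dist_triangle _ _ _
        _ < η / 2 + η / 2 := by
            rw [dist_comm (D a) x]
            dsimp only at hy
            linarith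
        _ = η := add_halves η

/-- the digits of a point -/
noncomputable def z3c {X : Type u} (U : ℕ → Set X) (x : X) : ℕ → Bool :=
  fun i => @decide (x ∈ U i) (Classical.propDecidable _)

theorem z3c_iff {X : Type u} (U : ℕ → Set X) (x : X) (i : ℕ) : z3c U x i = true ↔ x ∈ U i := by
  unfold z3c
  exact @decide_eq_true_iff _ (Classical.propDecidable _)

theorem z3_cantor_cont : Continuous (Cardinal.cantorFunction (1 / 3)) := by
  unfold Cardinal.cantorFunction
  refine continuous_tsum (u := fun n : ℕ => (1 / 3 : ℝ) ^ n) ?_ ?_ ?_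
  · intro n
    have h1 : (fun f : ℕ → Bool => Cardinal.cantorFunctionAux (1 / 3) f n) =
        (fun b : Bool => cond b ((1 / 3 : ℝ) ^ n) 0) ∘ fun f : ℕ → Bool => f n := rfl
    rw [h1]
    exact continuous_of_discreteTopology.comp (continuous_apply n)
  · exact summable_geometric_of_lt_one (by norm_num) (by norm_num)
  · intro n f
    cases h : f n
    · rw [Cardinal.cantorFunctionAux_false h]
      simp
    · rw [Cardinal.cantorFunctionAux_true h]
      simp

theorem z3_cantor_emb : IsClosedEmbedding (Cardinal.cantorFunction (1 / 3)) :=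
  z3_cantor_cont.isClosedEmbedding
    (Cardinal.cantorFunction_injective (by norm_num) (by norm_num))

/-- the real coordinate of a point -/
noncomputable def z3φ {X : Type u} (U : ℕ → Set X) (x : X) : ℝ :=
  Cardinal.cantorFunction (1 / 3) (z3c U x)

theorem z3φ_digit {X : Type u} (U : ℕ → Set X) (x : X) (i : ℕ) :
    ∃ δ > 0, ∀ y, |z3φ U y - z3φ U x| < δ → (y ∈ U i ↔ x ∈ U i) := by
  have h1 : {b : ℕ → Bool | b i = z3c U x i} ∈ 𝓝 (z3c U x) := by
    have h2 : Continuous fun b : ℕ → Bool => b i := continuous_apply i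
    have h3 : IsOpen ((fun b : ℕ → Bool => b i) ⁻¹' {z3c U x i}) :=
      (isOpen_discrete _).preimage h2
    exact h3.mem_nhds rfl
  rw [z3_cantor_emb.isInducing.nhds_eq_comap, Filter.mem_comap] at h1
  obtain ⟨t, ht, hsub⟩ := h1
  obtain ⟨δ, hδ, hball⟩ := Metric.mem_nhds_iff.mp ht
  refine ⟨δ, hδ, fun y hy => ?_⟩
  have h3 : z3c U y ∈ {b : ℕ → Bool | b i = z3c U x i} := by
    apply hsub
    apply hball
    rw [Metric.mem_ball, Real.dist_eq]
    exact hy
  rw [← z3c_iff U y i, ← z3c_iff U x i]
  change z3c U y i = z3c U x i at h3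
  rw [h3]

theorem z3φ_inj {X : Type u} [TopologicalSpace X] [T2Space X] (U : ℕ → Set X)
    (hU : ∀ x : X, ∀ O : Set X, IsOpen O → x ∈ O → ∃ i, x ∈ U i ∧ U i ⊆ O) :
    Function.Injective (z3φ U) := by
  intro x y hxy
  have h1 : z3c U x = z3c U y :=
    Cardinal.cantorFunction_injective (by norm_num) (by norm_num) hxy
  by_contra hne
  obtain ⟨i, hi, hsub⟩ := hU x {y}ᶜ isOpen_compl_singleton hne
  have h2 : y ∈ U i := by
    rw [← z3c_iff U y i, ← h1, z3c_iff]
    exact hi
  exact hsub h2 rfl

theorem z3φ_nonneg {X : Type u} (U : ℕ → Set X) (x : X) : 0 ≤ z3φ U x := by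
  unfold z3φ Cardinal.cantorFunction
  exact tsum_nonneg fun n => Cardinal.cantorFunctionAux_nonneg (by norm_num)

theorem z3φ_meas {X : Type u} [MeasurableSpace X] (U : ℕ → Set X)
    (hU : ∀ i, MeasurableSet (U i)) : Measurable (z3φ U) := by
  refine z3_cantor_cont.measurable.comp ?_
  rw [measurable_pi_iff]
  intro i
  refine measurable_to_bool ?_
  have : (fun x => z3c U x i) ⁻¹' {true} = U i := by
    ext x
    exact z3c_iff U x i
  rw [this]
  exact hU i

theorem z3φ_cont {X : Type u} [TopologicalSpace X] (U : ℕ → Set X) (x : X)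
    (hx : ∀ i, x ∉ frontier (U i)) : ContinuousAt (z3φ U) x := by
  refine z3_cantor_cont.continuousAt.comp ?_
  rw [continuousAt_pi]
  intro i
  have h1 : (fun y => z3c U y i) =ᶠ[𝓝 x] fun _ => z3c U x i := by
    by_cases hxi : x ∈ U i
    · have h2 : x ∈ interior (U i) := by
        by_contra h
        exact hx i ⟨subset_closure hxi, h⟩
      filter_upwards [mem_interior_iff_mem_nhds.mp h2] with y hy
      rw [(z3c_iff U y i).mpr hy, (z3c_iff U x i).mpr hxi]
    · have h2 : x ∉ closure (U i) := by
        intro h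
        exact hx i ⟨h, fun h3 => hxi (interior_subset h3)⟩
      have h4 : (closure (U i))ᶜ ∈ 𝓝 x := isClosed_closure.isOpen_compl.mem_nhds h2
      filter_upwards [h4] with y hy
      have hyi : y ∉ U i := fun h => hy (subset_closure h)
      have e1 : z3c U y i = false := by
        rw [← Bool.not_eq_true, z3c_iff]
        exact hyi
      have e2 : z3c U x i = false := by
        rw [← Bool.not_eq_true, z3c_iff]
        exact hxi
      rw [e1, e2]
  exact continuousAt_const.congr h1.symm

open ProbabilityTheory in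
theorem z3_cdf (ν : Measure ℝ) [IsProbabilityMeasure ν] [NullSingletonClass ν] :
    Continuous (cdf ν) := by
  rw [continuous_iff_continuousAt]
  intro a
  have h1 := (cdf ν).measure_singleton a
  rw [measure_cdf, measure_singleton] at h1
  have h2 : cdf ν a - Function.leftLim (cdf ν) a ≤ 0 := ENNReal.ofReal_eq_zero.mp h1.symm
  have h3 : Function.leftLim (cdf ν) a ≤ cdf ν a := (monotone_cdf ν).leftLim_le le_rfl
  rw [(monotone_cdf ν).continuousAt_iff_leftLim_eq_rightLim, StieltjesFunction.rightLim_eq]
  linarith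

open ProbabilityTheory in
theorem z3_map (ν : Measure ℝ) [IsProbabilityMeasure ν] [NullSingletonClass ν]
    (h0 : ν (Iio 0) = 0) : ν.map (cdf ν) = volume.restrict (Icc 0 1) := by
  have hc := z3_cdf ν
  refine Measure.ext_of_Iic _ _ fun a => ?_
  rw [Measure.map_apply hc.measurable measurableSet_Iic, Measure.restrict_apply measurableSet_Iic]
  rcases lt_or_ge a 0 with ha | ha
  · have h1 : cdf ν ⁻¹' Iic a = ∅ := by
      ext t
      simp only [mem_preimage, mem_Iic, mem_empty_iff_false, iff_false, not_le]
      exact ha.trans_le (cdf_nonneg ν t)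
    have h2 : Iic a ∩ Icc (0 : ℝ) 1 = ∅ := by
      ext t
      simp only [mem_inter_iff, mem_Iic, mem_Icc, mem_empty_iff_false, iff_false]
      rintro ⟨h3, h4, -⟩
      linarith
    rw [h1, h2, measure_empty, measure_empty]
  rcases le_or_gt 1 a with ha1 | ha1
  · have h1 : cdf ν ⁻¹' Iic a = univ := by
      ext t
      simp only [mem_preimage, mem_Iic, mem_univ, iff_true]
      exact (cdf_le_one ν t).trans ha1
    have h2 : Iic a ∩ Icc (0 : ℝ) 1 = Icc 0 1 := by
      ext t
      simp only [mem_inter_iff, mem_Iic, mem_Icc]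
      constructor
      · exact fun h => h.2
      · exact fun h => ⟨h.2.trans ha1, h⟩
    rw [h1, h2, measure_univ, Real.volume_Icc]
    simp
  · set T := cdf ν ⁻¹' Iic a with hT
    have hTcl : IsClosed T := isClosed_Iic.preimage hc
    have hTne : T.Nonempty := by
      refine ⟨-1, ?_⟩
      have h1 : cdf ν (-1) = 0 := by
        rw [cdf_eq_real, measureReal_def]
        have h2 : ν (Iic (-1)) = 0 := by
          refine measure_mono_null ?_ h0
          intro t ht
          rw [mem_Iic] at ht
          rw [mem_Iio]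
          linarith
        rw [h2, ENNReal.toReal_zero]
      change cdf ν (-1) ≤ a
      rw [h1]
      exact ha
    obtain ⟨t0, ht0⟩ : ∃ t0, a < cdf ν t0 :=
      ((tendsto_cdf_atTop ν).eventually (lt_mem_nhds ha1)).exists
    have hTb : BddAbove T := by
      refine ⟨t0, fun t ht => ?_⟩
      by_contra h
      push Not at h
      exact absurd (monotone_cdf ν h.le) (not_le.mpr (lt_of_le_of_lt ht ht0))
    have hs := hTcl.csSup_mem hTne hTb
    set s0 := sSup T with hs0
    have hTI : T = Iic s0 := by
      ext t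
      constructor
      · exact fun ht => le_csSup hTb ht
      · intro ht
        exact (monotone_cdf ν ht).trans hs
    have hval : cdf ν s0 = a := by
      apply le_antisymm hs
      by_contra h
      push Not at h
      have h1 : ∀ᶠ t in 𝓝 s0, cdf ν t < a := hc.continuousAt.eventually (gt_mem_nhds h)
      obtain ⟨δ, hδ, hb⟩ := Metric.eventually_nhds_iff.mp h1
      have h2 : cdf ν (s0 + δ / 2) < a := hb (by
        rw [Real.dist_eq, add_sub_cancel_left, abs_of_pos (by linarith)]
        linarith)
      have h3 : s0 + δ / 2 ∈ T := h2.le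
      have h4 := le_csSup hTb h3
      linarith
    have h5 : Iic a ∩ Icc (0 : ℝ) 1 = Icc 0 a := by
      ext t
      simp only [mem_inter_iff, mem_Iic, mem_Icc]
      constructor
      · exact fun h => ⟨h.2.1, h.1⟩
      · exact fun h => ⟨h.2, h.1, h.2.trans ha1.le⟩
    rw [hTI, ← ofReal_cdf ν s0, hval, h5, Real.volume_Icc, sub_zero]

open ProbabilityTheory in
/-- the values of the distribution function with nontrivial fibres -/
theorem z3_fib (ν : Measure ℝ) :
    {y : ℝ | ∃ t₁ t₂, t₁ < t₂ ∧ cdf ν t₁ = y ∧ cdf ν t₂ = y}.Countable := by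
  refine Set.PairwiseDisjoint.countable_of_isOpen
    (s := fun y => interior (cdf ν ⁻¹' {y})) ?_ (fun _ _ => isOpen_interior) ?_
  · intro y _ y' _ hne
    refine Disjoint.mono interior_subset interior_subset ?_
    rw [Set.disjoint_left]
    intro t ht ht'
    exact hne (ht.symm.trans ht')
  · rintro y ⟨t₁, t₂, hlt, h1, h2⟩
    obtain ⟨m, hm1, hm2⟩ := exists_between hlt
    refine ⟨m, ?_⟩
    rw [mem_interior]
    refine ⟨Ioo t₁ t₂, ?_, isOpen_Ioo, hm1, hm2⟩
    intro t ht
    apply le_antisymm
    · rw [← h2]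
      exact monotone_cdf ν ht.2.le
    · rw [← h1]
      exact monotone_cdf ν ht.1.le

end Z3

end Pool.Agent.Helper33.HM
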